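import Pool.Agent.Helper5.KZ.Stm

/-!
Piece IND of the project KZ of helper5: modules induced from a subgroup.
-/

set_option autoImplicit false

namespace Pool.Agent.Helper80.KZ

open Pool.Agent.Helper5.KZ

section
variable {k : Type} [DivisionRing k] {G : Type} [Group G] (C : Subgroup G)

/-- supported in `C` -/
def Su (w : MonoidAlgebra k G) : Prop := ∀ g ∈ w.coeff.support, g ∈ C

theorem su_iff (w : MonoidAlgebra k G) : Su C w ↔ ∀ g, g ∉ C → w.coeff g = 0 := by
  simp only [Su, Finsupp.mem_support_iff]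
  exact ⟨fun h g hg => by by_contra h0; exact hg (h g h0), fun h g hg => by
    by_contra h0; exact hg (h g h0)⟩

open Classical in
/-- the part of `c` in the coset `r C`, moved to `C` -/
noncomputable def pt (r : G) (c : MonoidAlgebra k G) : MonoidAlgebra k G :=
  MonoidAlgebra.ofCoeff ((MonoidAlgebra.single r⁻¹ (1 : k) * c).coeff.filter (· ∈ C))

open Classical in
theorem pt_apply (r : G) (c : MonoidAlgebra k G) (h : G) :
    (pt C r c).coeff h = if h ∈ C then c.coeff (r * h) else 0 := by
  unfold pt
  rw [MonoidAlgebra.coeff_ofCoeff, Finsupp.filter_apply, MonoidAlgebra.coeff_single_mul_apply,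
    one_mul, inv_inv]

theorem su_pt (r : G) (c : MonoidAlgebra k G) : Su C (pt C r c) := by
  classical
  rw [su_iff]
  intro g hg
  rw [pt_apply, if_neg hg]

theorem dec (s : Finset G) (hs : ∀ g ∈ s, ∀ g' ∈ s, g⁻¹ * g' ∈ C → g = g')
    (c : MonoidAlgebra k G) (hc : ∀ h ∈ c.coeff.support, ∃ r ∈ s, r⁻¹ * h ∈ C) :
    c = ∑ r ∈ s, MonoidAlgebra.single r (1 : k) * pt C r c := by
  classical
  ext h
  rw [MonoidAlgebra.coeff_sum, Finsupp.finsetSum_apply]
  have h1 : ∀ r ∈ s, (MonoidAlgebra.single r (1 : k) * pt C r c).coeff h =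
      if r⁻¹ * h ∈ C then c.coeff h else 0 := by
    intro r _
    rw [MonoidAlgebra.coeff_single_mul_apply, one_mul, pt_apply, mul_inv_cancel_left]
  rw [Finset.sum_congr rfl h1]
  by_cases h0 : c.coeff h = 0
  · simp [h0]
  · obtain ⟨r, hr, hrC⟩ := hc h (Finsupp.mem_support_iff.2 h0)
    rw [Finset.sum_eq_single r, if_pos hrC]
    · intro r' hr' hne
      rw [if_neg]
      intro hC
      apply hne
      apply hs r' hr' r hr
      have : r'⁻¹ * r = (r'⁻¹ * h) * (r⁻¹ * h)⁻¹ := by group
      rw [this]
      exact C.mul_mem hC (C.inv_mem hrC)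
    · intro h'; exact absurd hr h'

theorem ind (s : Finset G) (hs : ∀ g ∈ s, ∀ g' ∈ s, g⁻¹ * g' ∈ C → g = g')
    (w : G → MonoidAlgebra k G) (hw : ∀ r ∈ s, Su C (w r))
    (h0 : ∑ r ∈ s, MonoidAlgebra.single r (1 : k) * w r = 0) : ∀ r ∈ s, w r = 0 := by
  classical
  intro r hr
  ext h
  by_cases hC : h ∈ C
  · have h1 := congrArg (fun z : MonoidAlgebra k G => z.coeff (r * h)) h0
    simp only [MonoidAlgebra.coeff_sum, Finsupp.finsetSum_apply,
      MonoidAlgebra.coeff_single_mul_apply, one_mul, MonoidAlgebra.coeff_zero,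
      Finsupp.coe_zero, Pi.zero_apply] at h1
    rw [Finset.sum_eq_single r] at h1
    · simpa using h1
    · intro r' hr' hne
      apply (su_iff C _).1 (hw r' hr')
      intro hC'
      apply hne
      apply hs r' hr' r hr
      have : r'⁻¹ * r = (r'⁻¹ * (r * h)) * h⁻¹ := by group
      rw [this]
      exact C.mul_mem hC' (C.inv_mem hC)
    · intro h'; exact absurd hr h'
  · have := (su_iff C _).1 (hw r hr) h hC
    simpa using this

theorem su_zero : Su C (0 : MonoidAlgebra k G) := by
  rw [su_iff]; intro g _; simp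

theorem su_add {x y : MonoidAlgebra k G} (hx : Su C x) (hy : Su C y) : Su C (x + y) := by
  rw [su_iff] at *
  intro g hg
  simp [hx g hg, hy g hg]

theorem su_sum {ι : Type} (s : Finset ι) (f : ι → MonoidAlgebra k G) (h : ∀ i ∈ s, Su C (f i)) :
    Su C (∑ i ∈ s, f i) := by
  classical
  induction s using Finset.induction_on with
  | empty => simpa using su_zero C
  | insert a t ha ih =>
    rw [Finset.sum_insert ha]
    exact su_add C (h a (Finset.mem_insert_self _ _))
      (ih fun i hi => h i (Finset.mem_insert_of_mem hi))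

theorem su_mul {x y : MonoidAlgebra k G} (hx : Su C x) (hy : Su C y) : Su C (x * y) := by
  classical
  rw [su_iff] at *
  intro g hg
  rw [MonoidAlgebra.coeff_mul]
  apply Finset.sum_eq_zero
  intro a ha
  apply Finset.sum_eq_zero
  intro b hb
  dsimp only
  split_ifs with h
  · exfalso
    rw [Finsupp.mem_support_iff] at ha hb
    have h1 : a ∈ C := by by_contra h'; exact ha (hx a h')
    have h2 : b ∈ C := by by_contra h'; exact hb (hy b h')
    exact hg (h ▸ C.mul_mem h1 h2)
  · rfl

theorem su_single {g : G} (hg : g ∈ C) (a : k) : Su C (MonoidAlgebra.single g a) := by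
  classical
  rw [su_iff]
  intro h hh
  rw [MonoidAlgebra.coeff_single, Finsupp.single_apply, if_neg]
  rintro rfl
  exact hh hg

end

theorem t_ind : S_IND := by
  classical
  intro k _ G _ C N _ _ N₀ h1 h2 h3 hS
  obtain ⟨a, b, d, hd, hsp, hin⟩ := hS
  -- closure of N₀ under k[C]
  have hN : ∀ w : MonoidAlgebra k G, Su C w → ∀ x ∈ N₀, w • x ∈ N₀ := by
    intro w hw x hx
    rw [← MonoidAlgebra.sum_coeff_single w, Finsupp.sum, Finset.sum_smul]
    exact sum_mem fun g hg => h1 g (hw g hg) _ x hx
  have hBox : ∀ c : Fin b → MonoidAlgebra k G, (∀ j, Su C (c j)) →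
      ∑ j, c j • d j ∈ Box (k := k) C N₀ a := by
    intro c hc
    refine ⟨?_, fun i => ?_⟩
    · rw [Prod.fst_sum]
      exact sum_mem fun j _ => hN (c j) (hc j) _ (hd j).1
    · rw [Prod.snd_sum, Finset.sum_apply]
      refine su_sum C _ _ fun j _ => ?_
      exact su_mul C (hc j) ((hd j).2 i)
  let Φ : (Fin b → MonoidAlgebra k G) →ₗ[MonoidAlgebra k G] N × (Fin a → MonoidAlgebra k G) :=
    { toFun := fun c => ∑ j, c j • d j
      map_add' := fun x y => by simp [add_smul, Finset.sum_add_distrib]
      map_smul' := fun r x => by simp [Finset.smul_sum, mul_smul] }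
  have hΦ : ∀ c, Φ c = ∑ j, c j • d j := fun c => rfl
  have hinj : Function.Injective Φ := by
    rw [← LinearMap.ker_eq_bot, LinearMap.ker_eq_bot']
    intro c hc
    rw [hΦ] at hc
    -- representatives
    let q : G → G := fun h => ((h : G ⧸ C)).out
    have hq : ∀ h : G, (q h)⁻¹ * h ∈ C := by
      intro h
      rw [← QuotientGroup.eq]
      exact QuotientGroup.out_eq' _
    let s : Finset G := (Finset.univ.biUnion fun j : Fin b => (c j).coeff.support).image q
    have hs : ∀ g ∈ s, ∀ g' ∈ s, g⁻¹ * g' ∈ C → g = g' := by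
      intro g hg g' hg' hC
      obtain ⟨h, -, rfl⟩ := Finset.mem_image.1 hg
      obtain ⟨h', -, rfl⟩ := Finset.mem_image.1 hg'
      rw [← QuotientGroup.eq] at hC
      have e1 : ((q h : G) : G ⧸ C) = (h : G ⧸ C) := QuotientGroup.out_eq' _
      have e2 : ((q h' : G) : G ⧸ C) = (h' : G ⧸ C) := QuotientGroup.out_eq' _
      have e3 : (h : G ⧸ C) = (h' : G ⧸ C) := by rw [← e1, ← e2, hC]
      show ((h : G ⧸ C)).out = ((h' : G ⧸ C)).out
      rw [e3]
    have hcov : ∀ j, ∀ h ∈ (c j).coeff.support, ∃ r ∈ s, r⁻¹ * h ∈ C := by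
      intro j h hh
      exact ⟨q h, Finset.mem_image.2 ⟨h, Finset.mem_biUnion.2 ⟨j, Finset.mem_univ _, hh⟩, rfl⟩,
        hq h⟩
    have hdec : ∀ j, c j = ∑ r ∈ s, MonoidAlgebra.single r (1 : k) * pt C r (c j) :=
      fun j => dec C s hs (c j) (hcov j)
    let y : G → N × (Fin a → MonoidAlgebra k G) := fun r => ∑ j, pt C r (c j) • d j
    have hy : ∀ r, y r ∈ Box (k := k) C N₀ a := fun r => hBox _ fun j => su_pt C r (c j)
    have hsum : ∑ r ∈ s, MonoidAlgebra.single r (1 : k) • y r = 0 := by
      rw [← hc]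
      calc ∑ r ∈ s, MonoidAlgebra.single r (1 : k) • y r =
          ∑ r ∈ s, ∑ j, (MonoidAlgebra.single r (1 : k) * pt C r (c j)) • d j := by
            refine Finset.sum_congr rfl fun r _ => ?_
            simp only [y, Finset.smul_sum, mul_smul]
        _ = ∑ j, ∑ r ∈ s, (MonoidAlgebra.single r (1 : k) * pt C r (c j)) • d j :=
            Finset.sum_comm
        _ = ∑ j, c j • d j := by
            refine Finset.sum_congr rfl fun j _ => ?_
            rw [← Finset.sum_smul, ← hdec j]
    have hfst : ∀ r ∈ s, (y r).1 = 0 := by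
      apply h3 s (fun r => (y r).1) hs (fun r _ => (hy r).1)
      have := congrArg Prod.fst hsum
      simpa [Prod.fst_sum] using this
    have hsnd : ∀ i, ∀ r ∈ s, (y r).2 i = 0 := by
      intro i
      apply ind C s hs (fun r => (y r).2 i) (fun r _ => (hy r).2 i)
      have := congrFun (congrArg Prod.snd hsum) i
      simpa [Prod.snd_sum, Finset.sum_apply] using this
    have hy0 : ∀ r ∈ s, y r = 0 := fun r hr => Prod.ext (hfst r hr) (funext fun i => hsnd i r hr)
    have hpt : ∀ r ∈ s, ∀ j, pt C r (c j) = 0 := by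
      intro r hr j
      have := hin (fun j => pt C r (c j)) (fun j => su_pt C r (c j)) (hy0 r hr)
      exact congrFun this j
    funext j
    rw [hdec j]
    exact Finset.sum_eq_zero fun r hr => by rw [hpt r hr j, mul_zero]
  have hsurj : Function.Surjective Φ := by
    have hB : ∀ z ∈ Box (k := k) C N₀ a, z ∈ LinearMap.range Φ := by
      intro z hz
      obtain ⟨c, -, hc⟩ := hsp z hz
      exact ⟨c, hc.symm⟩
    have hx : ∀ x : N, ((x, 0) : N × (Fin a → MonoidAlgebra k G)) ∈ LinearMap.range Φ := by
      intro x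
      have := h2 x
      induction this using AddSubgroup.closure_induction with
      | mem z hz =>
        obtain ⟨g, z0, hz0, rfl⟩ := hz
        have : ((MonoidAlgebra.single g (1 : k) • z0, 0) : N × (Fin a → MonoidAlgebra k G)) =
            MonoidAlgebra.single g (1 : k) • (z0, 0) := by
          ext <;> simp
        rw [this]
        apply Submodule.smul_mem
        apply hB
        exact ⟨hz0, fun i g hg => by simp at hg⟩
      | zero => exact Submodule.zero_mem _
      | add x y _ _ hx hy =>
        have : ((x + y, 0) : N × (Fin a → MonoidAlgebra k G)) = (x, 0) + (y, 0) := by simp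
        rw [this]
        exact Submodule.add_mem _ hx hy
      | neg x _ hx =>
        have : ((-x, 0) : N × (Fin a → MonoidAlgebra k G)) = -(x, 0) := by simp
        rw [this]
        exact Submodule.neg_mem _ hx
    have hv : ∀ v : Fin a → MonoidAlgebra k G,
        ((0, v) : N × (Fin a → MonoidAlgebra k G)) ∈ LinearMap.range Φ := by
      intro v
      have : ((0, v) : N × (Fin a → MonoidAlgebra k G)) =
          ∑ i, v i • ((0, Pi.single i 1) : N × (Fin a → MonoidAlgebra k G)) := by
        refine Prod.ext ?_ ?_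
        · rw [Prod.fst_sum]; simp
        · rw [Prod.snd_sum]
          funext j
          simp [Finset.sum_apply, Pi.single_apply]
      rw [this]
      refine Submodule.sum_mem _ fun i _ => Submodule.smul_mem _ _ (hB _ ⟨N₀.zero_mem, ?_⟩)
      intro j
      show Su C ((Pi.single i 1 : Fin a → MonoidAlgebra k G) j)
      by_cases hij : j = i
      · subst hij
        rw [Pi.single_eq_same]
        exact su_single C C.one_mem 1
      · rw [Pi.single_eq_of_ne hij]
        exact su_zero C
    rintro ⟨x, v⟩
    have : ((x, v) : N × (Fin a → MonoidAlgebra k G)) = (x, 0) + (0, v) := by simp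
    have h' : ((x, v) : N × (Fin a → MonoidAlgebra k G)) ∈ LinearMap.range Φ := by
      rw [this]
      exact Submodule.add_mem _ (hx x) (hv v)
    exact h'
  exact ⟨a, b, ⟨(LinearEquiv.ofBijective Φ ⟨hinj, hsurj⟩).symm⟩⟩

end Pool.Agent.Helper80.KZ
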